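import Pool.Agent.N266.LS.Stm
import Pool.Agent.R220.LV.Main
import Pool.Agent.N273.LT.Sum1
import Pool.Agent.N273.LT.Stu

/-!
# Project LS (helper266), part SCALE (helper157): slow variation, small potentials, counts
-/

set_option autoImplicit false

open MeasureTheory Set

namespace Pool.Agent.N157.LS

open Pool.Agent.N266.LS

theorem sin_lip (a b : ℝ) : |Real.sin a - Real.sin b| ≤ |a - b| := by
  rw [Real.sin_sub_sin]
  have h1 : |Real.sin ((a - b) / 2)| ≤ |(a - b) / 2| := Real.abs_sin_le_abs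
  have h2 := Real.abs_cos_le_one ((a + b) / 2)
  rw [abs_mul, abs_mul, abs_two]
  rw [abs_div, abs_two] at h1
  have h3 := abs_nonneg (Real.sin ((a - b) / 2))
  have h4 := abs_nonneg (Real.cos ((a + b) / 2))
  nlinarith

theorem sin_sq_le (a b : ℝ) : Real.sin a ^ 2 ≤ 2 * Real.sin b ^ 2 + 2 * (a - b) ^ 2 := by
  have h := sin_lip a b
  have h1 : (Real.sin a - Real.sin b) ^ 2 ≤ (a - b) ^ 2 := sq_le_sq.mpr h
  nlinarith [sq_nonneg (Real.sin a - 2 * Real.sin b)]

theorem D2_nonneg (L : ℝ) (p : ℝ × ℝ) : 0 ≤ D2 L p := by unfold D2; positivity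

theorem sin_x (L x x' : ℝ) : Real.sin (2 * Real.pi * x / L) ^ 2 ≤
    2 * Real.sin (2 * Real.pi * x' / L) ^ 2 + 2 * (2 * Real.pi / L) ^ 2 * (x - x') ^ 2 := by
  have h := sin_sq_le (2 * Real.pi * x / L) (2 * Real.pi * x' / L)
  have e : 2 * Real.pi * x / L - 2 * Real.pi * x' / L = (2 * Real.pi / L) * (x - x') := by ring
  rw [e] at h
  calc _ ≤ _ := h
    _ = _ := by ring

theorem D2_le (L : ℝ) (p q : ℝ × ℝ) : D2 L q ≤ 2 * D2 L p +
    2 * (2 * Real.pi / L) ^ 2 * (q.1 - p.1) ^ 2 + 2 * (q.2 - p.2) ^ 2 := by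
  have h1 := sin_x L q.1 p.1
  have h2 := sin_sq_le q.2 p.2
  unfold D2
  linarith

section
variable {L lam : ℝ} (hlam : 0 < lam) (p : ℝ × ℝ)

include hlam

theorem rad_pos : 0 ≤ 1 + Real.sqrt lam + lam * D2 L p := by
  have := D2_nonneg L p
  have := Real.sqrt_nonneg lam
  positivity

theorem nn_sq : nn L lam p ^ 2 = 1 + Real.sqrt lam + lam * D2 L p :=
  Real.sq_sqrt (rad_pos hlam p)

theorem one_le_nn : 1 ≤ nn L lam p := by
  unfold nn
  rw [Real.one_le_sqrt]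
  have := D2_nonneg L p
  have := Real.sqrt_nonneg lam
  nlinarith [mul_nonneg hlam.le (D2_nonneg L p)]

theorem nn_pos : 0 < nn L lam p := lt_of_lt_of_le one_pos (one_le_nn hlam p)

theorem lam_D2_le : lam * D2 L p ≤ nn L lam p ^ 2 := by
  rw [nn_sq hlam]
  have := Real.sqrt_nonneg lam
  linarith

theorem sqrt_le : Real.sqrt lam ≤ nn L lam p ^ 2 := by
  rw [nn_sq hlam]
  nlinarith [mul_nonneg hlam.le (D2_nonneg L p)]

theorem lam_le : lam ≤ nn L lam p ^ 4 := by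
  have h := sqrt_le (L := L) hlam p
  have h1 := mul_self_le_mul_self (Real.sqrt_nonneg lam) h
  rw [Real.mul_self_sqrt hlam.le] at h1
  calc lam ≤ _ := h1
    _ = _ := by ring

theorem sq_le_of {c x : ℝ} (h : |x| ≤ c / nn L lam p) : x ^ 2 * nn L lam p ^ 2 ≤ c ^ 2 := by
  have hN := nn_pos (L := L) hlam p
  rw [le_div_iff₀ hN] at h
  have h0 : 0 ≤ |x| * nn L lam p := by positivity
  have := mul_self_le_mul_self h0 h
  have e : |x| * nn L lam p * (|x| * nn L lam p) = x ^ 2 * nn L lam p ^ 2 := by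
    rw [← sq_abs x]; ring
  rw [e] at this
  linarith

/-- `lam x² ≤ c² N²` if `|x| ≤ c / N` -/
theorem lam_sq_le {c x : ℝ} (h : |x| ≤ c / nn L lam p) : lam * x ^ 2 ≤ c ^ 2 * nn L lam p ^ 2 := by
  have h1 := sq_le_of hlam p h
  have h2 := lam_le (L := L) hlam p
  have hx := sq_nonneg x
  calc lam * x ^ 2 ≤ nn L lam p ^ 4 * x ^ 2 := mul_le_mul_of_nonneg_right h2 hx
    _ = (x ^ 2 * nn L lam p ^ 2) * nn L lam p ^ 2 := by ring
    _ ≤ c ^ 2 * nn L lam p ^ 2 := mul_le_mul_of_nonneg_right h1 (sq_nonneg _)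

theorem var1 {c : ℝ} (q : ℝ × ℝ) (h1 : |q.1 - p.1| ≤ c / nn L lam p)
    (h2 : |q.2 - p.2| ≤ c / nn L lam p) :
    nn L lam q ≤ Real.sqrt (2 + 2 * ((2 * Real.pi / L) ^ 2 + 1) * c ^ 2) * nn L lam p := by
  have hN := nn_pos (L := L) hlam p
  have h0 : 0 ≤ 2 + 2 * ((2 * Real.pi / L) ^ 2 + 1) * c ^ 2 := by positivity
  refine (abs_le_of_sq_le_sq' ?_ (by positivity)).2
  rw [mul_pow, Real.sq_sqrt h0, nn_sq hlam q]
  have a1 := lam_sq_le hlam p h1
  have a2 := lam_sq_le hlam p h2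
  have a3 := mul_le_mul_of_nonneg_left (D2_le L p q) hlam.le
  have a4 := nn_sq (L := L) hlam p
  have a5 := Real.sqrt_nonneg lam
  have w : 0 ≤ (2 * Real.pi / L) ^ 2 := sq_nonneg _
  have a6 := mul_le_mul_of_nonneg_left a1 w
  nlinarith

end

theorem t_VAR : S_VAR := by
  intro L c hL hc
  set k1 := Real.sqrt (2 + 2 * ((2 * Real.pi / L) ^ 2 + 1) * c ^ 2) with hk1
  set k2 := Real.sqrt (2 + 2 * ((2 * Real.pi / L) ^ 2 + 1) * (c * k1) ^ 2) with hk2
  have h1 : 1 ≤ k1 := by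
    rw [hk1, Real.one_le_sqrt]
    have : 0 ≤ ((2 * Real.pi / L) ^ 2 + 1) * c ^ 2 := by positivity
    linarith
  refine ⟨max k1 k2, le_max_of_le_left h1, fun lam p q hlam hp hq => ?_⟩
  have hNp := nn_pos (L := L) hlam p
  have hNq := nn_pos (L := L) hlam q
  have a := var1 hlam p q hp hq
  rw [← hk1] at a
  have b : c / nn L lam p ≤ c * k1 / nn L lam q := by
    rw [div_le_div_iff₀ hNp hNq]
    calc c * nn L lam q ≤ c * (k1 * nn L lam p) := mul_le_mul_of_nonneg_left a hc.le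
      _ = _ := by ring
  have a2 := var1 hlam q p (c := c * k1) (by rw [abs_sub_comm]; exact hp.trans b)
    (by rw [abs_sub_comm]; exact hq.trans b)
  rw [← hk2] at a2
  exact ⟨a.trans (mul_le_mul_of_nonneg_right (le_max_left _ _) hNp.le),
    a2.trans (mul_le_mul_of_nonneg_right (le_max_right _ _) hNq.le)⟩

theorem pot1 {L lam K A h : ℝ} (hK : 0 < K) (hlam : 0 < lam)
    (p : ℝ × ℝ) (s s' w x v : ℝ) (hx : |x| ≤ A / nn L lam p) (h0 : 0 ≤ v) (hv : v ≤ K * s)
    (hs : s ≤ 2 * s' + 2 * w ^ 2 * x ^ 2) (hs' : s' ≤ D2 L p)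
    (hh : h ^ 2 * (K * (2 + 2 * w ^ 2 * A ^ 2)) ≤ 1 / 100) :
    |(h / nn L lam p) ^ 2 * lam * v| ≤ 1 / 100 := by
  have hN := nn_pos (L := L) hlam p
  have hN2 : 0 < nn L lam p ^ 2 := by positivity
  rw [abs_of_nonneg (by positivity)]
  have e : (h / nn L lam p) ^ 2 * lam * v = h ^ 2 * (lam * v) / nn L lam p ^ 2 := by
    field_simp
  rw [e, div_le_iff₀ hN2]
  have b1 : lam * v ≤ K * (2 + 2 * w ^ 2 * A ^ 2) * nn L lam p ^ 2 := by
    have c1 := lam_sq_le hlam p hx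
    have c2 := lam_D2_le (L := L) hlam p
    have c3 : lam * s' ≤ nn L lam p ^ 2 := (mul_le_mul_of_nonneg_left hs' hlam.le).trans c2
    have c4 : lam * s ≤ 2 * (lam * s') + 2 * w ^ 2 * (lam * x ^ 2) := by
      calc lam * s ≤ lam * (2 * s' + 2 * w ^ 2 * x ^ 2) := mul_le_mul_of_nonneg_left hs hlam.le
        _ = _ := by ring
    have c5 : 2 * w ^ 2 * (lam * x ^ 2) ≤ 2 * w ^ 2 * (A ^ 2 * nn L lam p ^ 2) :=
      mul_le_mul_of_nonneg_left c1 (by positivity)
    have c6 : lam * s ≤ (2 + 2 * w ^ 2 * A ^ 2) * nn L lam p ^ 2 := by linarith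
    calc lam * v ≤ lam * (K * s) := mul_le_mul_of_nonneg_left hv hlam.le
      _ = K * (lam * s) := by ring
      _ ≤ K * ((2 + 2 * w ^ 2 * A ^ 2) * nn L lam p ^ 2) := mul_le_mul_of_nonneg_left c6 hK.le
      _ = _ := by ring
  calc h ^ 2 * (lam * v) ≤ h ^ 2 * (K * (2 + 2 * w ^ 2 * A ^ 2) * nn L lam p ^ 2) :=
        mul_le_mul_of_nonneg_left b1 (sq_nonneg _)
    _ = (h ^ 2 * (K * (2 + 2 * w ^ 2 * A ^ 2))) * nn L lam p ^ 2 := by ring
    _ ≤ _ := mul_le_mul_of_nonneg_right hh hN2.le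

theorem t_POT : S_POT := by
  intro L K A hL hK hA
  set M := K * (2 + 2 * ((2 * Real.pi / L) ^ 2 + 1) * A ^ 2) with hM
  have hM0 : 0 < M := by positivity
  have hh1 : 1 / (1 + 100 * M) ≤ 1 := by
    rw [div_le_one (by positivity)]; linarith
  have hh2 : (1 / (1 + 100 * M)) ^ 2 * M ≤ 1 / 100 := by
    have a1 : 0 < 1 / (1 + 100 * M) := by positivity
    have a2 : (1 / (1 + 100 * M)) ^ 2 ≤ 1 / (1 + 100 * M) := by nlinarith
    have a3 : 1 / (1 + 100 * M) * M ≤ 1 / 100 := by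
      rw [div_mul_eq_mul_div, div_le_div_iff₀ (by positivity) (by norm_num)]
      linarith
    exact (mul_le_mul_of_nonneg_right a2 hM0.le).trans a3
  refine ⟨1 / (1 + 100 * M), by positivity, hh1, fun f g m lam hfg hlam p => ⟨?_, ?_⟩⟩
  · intro x hx
    refine pot1 hK hlam p _ _ (2 * Real.pi / L) (x - p.1) (f x) hx
      (le_trans (mul_nonneg hfg.m0.le (sq_nonneg _)) (hfg.lf x)) (hfg.uf x) (sin_x L x p.1) ?_ ?_
    · unfold D2; have := sq_nonneg (Real.sin p.2); linarith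
    · refine le_trans ?_ hh2
      refine mul_le_mul_of_nonneg_left ?_ (sq_nonneg _)
      rw [hM]
      refine mul_le_mul_of_nonneg_left ?_ hK.le
      have := sq_nonneg A
      nlinarith
  · intro y hy
    refine pot1 hK hlam p _ _ 1 (y - p.2) (g y) hy
      (le_trans (mul_nonneg hfg.m0.le (sq_nonneg _)) (hfg.lg y)) (hfg.ug y)
      (by have := sin_sq_le y p.2; linarith) (?_ : Real.sin p.2 ^ 2 ≤ D2 L p) ?_
    · unfold D2; have := sq_nonneg (Real.sin (2 * Real.pi * p.1 / L)); linarith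
    · refine le_trans ?_ hh2
      refine mul_le_mul_of_nonneg_left ?_ (sq_nonneg _)
      rw [hM]
      refine mul_le_mul_of_nonneg_left ?_ hK.le
      have : 0 ≤ (2 * Real.pi / L) ^ 2 * A ^ 2 := by positivity
      linarith


section
open Pool.Agent.N273.LT (Alt UB sturm_bd ub_of per KK KK_pos)
open Pool.Agent.R220.LV (W mem_of_eigen)
open Pool.Agent.Y291.DB (dl dl_pos Eigen)

theorem t_CNT : S_CNT := by
  intro L K R hL hK hR
  have hp1 : (0 : ℝ) < per (2 * Real.pi) R := by unfold per; positivity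
  have hp2 : (0 : ℝ) < per L R := by unfold per; positivity
  have hKK := KK_pos hK.le hK.le
  have hpi := Real.pi_pos
  refine ⟨4 * (per (2 * Real.pi) R * (2 * Real.pi) + per L R * L) * KK K K, by positivity,
    fun f g m lam φ hfg hφ => ?_⟩
  have hf : ∀ x, |f x| ≤ K := fun x => by
    have h0 : 0 ≤ f x := le_trans (mul_nonneg hfg.m0.le (sq_nonneg _)) (hfg.lf x)
    rw [abs_of_nonneg h0]
    have h1 := Real.sin_sq_le_one (2 * Real.pi * x / L)
    have h2 := hfg.uf x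
    nlinarith
  have hg : ∀ x, |g x| ≤ K := fun x => by
    have h0 : 0 ≤ g x := le_trans (mul_nonneg hfg.m0.le (sq_nonneg _)) (hfg.lg x)
    rw [abs_of_nonneg h0]
    have h1 := Real.sin_sq_le_one x
    have h2 := hfg.ug x
    nlinarith
  have hmem : φ ∈ W hfg.cf hfg.cg L lam := mem_of_eigen hfg.cf hfg.cg hφ
  have hs : 0 < Real.sqrt (1 + lam) := Real.sqrt_pos.mpr (by linarith [hφ.pos])
  have hdl : ∀ a : ℝ, a / dl lam = 2 * a * Real.sqrt (1 + lam) := fun a => by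
    unfold dl
    field_simp
  obtain ⟨h1, h2⟩ := sturm_bd hfg.cf hfg.cg hL hfg.pf hfg.pg hmem hφ.pos hf hg
  have q1 : 0 ≤ (per (2 * Real.pi) R * (2 * Real.pi)) * KK K K * Real.sqrt (1 + lam) := by
    positivity
  have q2 : 0 ≤ (per L R * L) * KK K K * Real.sqrt (1 + lam) := by positivity
  refine ⟨ub_of hfg.cf hfg.cg hL hfg.pf hfg.pg hmem hφ.pos hf hg, ?_, ?_⟩
  · intro x a b n hab hn
    have := h1 x a b R n hab hn
    rw [hdl] at this
    linarith
  · intro y a b n hab hn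
    have := h2 y a b R n hab hn
    rw [hdl] at this
    linarith

end

end Pool.Agent.N157.LS
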